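import Pool.Agent.V7H95.SA.Cnt
import Pool.Agent.V7H95.SA.Ins

/-!
# MP_5402c6: the edge maximum of semi-arc `k`-visibility graphs, lower bounds

The conjectured value fails for every `n > 3k+3`; for `n ≥ 5k+5` the lower bound equals the known
upper bound.
-/

namespace Pool.Agent.Results.MP_5402c6_co.LargeNH95

open Pool.Agent.Results.MP_e2d93f_co.AllK

/-- (1) For every `k` and every `n ≥ 5k+5` some semi-arc `k`-visibility graph on `n` vertices has
at least `(k+1)(2n - (k+2)/2)` edges. (2) For every `k` and every `n ≥ 3k+4` some semi-arc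
`k`-visibility graph on `n` vertices has at least `(k+1)(2n - (3k+4)/2)` edges, and so more than
`(k+1)(2n - (3k+6)/2)`. -/
theorem result :
    (∀ k n : ℕ, 5 * k + 5 ≤ n → ∃ G : SimpleGraph (Fin n), IsSemiArcVisibility k G ∧
      ((k : ℚ) + 1) * (2 * n - (k + 2) / 2) ≤ (G.edgeSet.ncard : ℕ)) ∧
    (∀ k n : ℕ, 3 * k + 4 ≤ n → ∃ G : SimpleGraph (Fin n), IsSemiArcVisibility k G ∧
      ((k : ℚ) + 1) * (2 * n - (3 * k + 4) / 2) ≤ (G.edgeSet.ncard : ℕ) ∧
      ((k : ℚ) + 1) * (2 * n - (3 * k + 6) / 2) < (G.edgeSet.ncard : ℕ)) := by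
  constructor
  · intro k n h
    obtain ⟨G, hG, hm⟩ := Pool.Agent.V7H95.SA.lower k n (by omega)
    have h1 : (4 * ((k : ℚ) + 1) * n : ℚ) ≤ 2 * (G.edgeSet.ncard : ℕ) + (k + 1) * (k + 2) := by
      exact_mod_cast hm
    exact ⟨G, hG, by linarith⟩
  · intro k n h
    obtain ⟨G, hG, hm⟩ := Pool.Agent.V7H95.SA.lower' k n h
    obtain ⟨j, rfl⟩ := Nat.exists_eq_add_of_le h
    rw [Nat.add_sub_cancel_left] at hm
    have h1 : (((3 * k + 4).choose 2 : ℕ) : ℚ) + 2 * ((k : ℚ) + 1) * j ≤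
        (G.edgeSet.ncard : ℕ) := by
      exact_mod_cast hm
    have h2 : (((3 * k + 4).choose 2 : ℕ) : ℚ) = (3 * k + 4) * (3 * k + 3) / 2 := by
      rw [Nat.cast_choose_two]
      push_cast
      ring
    rw [h2] at h1
    have hk : (0 : ℚ) ≤ k := by positivity
    refine ⟨G, hG, ?_, ?_⟩
    · push_cast
      linarith
    · push_cast
      linarith

end Pool.Agent.Results.MP_5402c6_co.LargeNH95
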